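import Mathlib
import Pool.Agent.Lib.MP_425ff5_an.ProofQ2

open Pool.Agent.Lib.MP_425ff5_an

namespace Pool.Agent.Results.MP_425ff5_an.BoundedComponent

/-- In the Stein manifold `ℂ²` there is a domain `Ω` whose core has a nonempty maximal
component `K` that is relatively compact in `ℂ²`.  (`chartedSpaceSelf` is the standard manifold structure
of `ℂ²`, whose atlas consists of the identity chart.) -/
theorem result : ∃ Ω : Set (Cn 2), IsOpen Ω ∧ IsConnected Ω ∧
    ∃ K : Set (Cn 2), @IsMaximalComponent (Cn 2) _ 2 (chartedSpaceSelf (Cn 2)) Ω K ∧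
      K.Nonempty ∧ IsCompact (closure K) :=
  Hartogs.exists_bounded_component

end Pool.Agent.Results.MP_425ff5_an.BoundedComponent
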