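import Mathlib
import Pool.Agent.Lib.MP_425ff5_an.ProofQ1

open scoped Manifold ContDiff
open Pool.Agent.Lib.MP_425ff5_an

namespace Pool.Agent.Results.MP_425ff5_an.NoSingletonComponent

/-- Let `M` be a (Hausdorff) complex manifold of dimension `n`, `Ω ⊆ M` a domain and
`K` a nonempty maximal component of the core of `Ω`.  Then `K` contains at least two points. -/
theorem result (n : ℕ) (M : Type*) [TopologicalSpace M] [T2Space M] [ChartedSpace (Cn n) M]
    [IsManifold 𝓘(ℂ, Cn n) ω M] (Ω : Set M) (hΩ : IsOpen Ω) (hconn : IsConnected Ω)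
    (K : Set M) (hK : IsMaximalComponent n Ω K) (hne : K.Nonempty) : K.Nontrivial :=
  nontrivial_of_maximal n M Ω hΩ hconn K hK hne

end Pool.Agent.Results.MP_425ff5_an.NoSingletonComponent
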